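import Pool.Agent.helper56.CY.Spec

set_option autoImplicit false

namespace Pool.Agent.CY
open Finset CT

theorem RDE_cred {V : Type} [DecidableEq V] (c : V × Fin 4 → ℕ) (v w : V) (j k : Fin 4 → Fin 4) (d : V × Fin 4)
    (h : d ≠ (v, j 0)) (h' : d ≠ (v, j 1)) : cred c v w j k d = c d := by
  unfold cred
  rw [if_neg (fun hh => hh.elim h h')]

theorem RDE_cred0 {V : Type} [DecidableEq V] (c : V × Fin 4 → ℕ) (v w : V) (j k : Fin 4 → Fin 4) :
    cred c v w j k (v, j 0) = c (w, k 2) ∧ cred c v w j k (v, j 1) = c (w, k 2) := by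
  unfold cred
  exact ⟨if_pos (Or.inl rfl), if_pos (Or.inr rfl)⟩

theorem RDE_even (j : Fin 4 → Fin 4) (hj : Function.Injective j) (f : Fin 4 → ℕ) (h01 : f (j 0) = f (j 1))
    (h23 : f (j 2) = f (j 3)) (a : ℕ) : Even ((univ : Finset (Fin 4)).filter fun i => f i = a).card := by
  have hb : Function.Bijective j := Finite.injective_iff_bijective.1 hj
  rw [Finset.card_filter, ← (Equiv.ofBijective j hb).sum_comp (fun i => if f i = a then 1 else 0)]
  rw [Fin.sum_univ_four]
  show Even ((if f (j 0) = a then 1 else 0) + (if f (j 1) = a then 1 else 0) + (if f (j 2) = a then 1 else 0) +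
    (if f (j 3) = a then 1 else 0))
  rw [h01, h23]
  exact ⟨(if f (j 1) = a then 1 else 0) + (if f (j 3) = a then 1 else 0), by ring⟩

theorem RDE (hRDV : RDV_stmt) (hCOU : COU_stmt) : RDE_stmt := by
  intro V _ L e u v w i j k c m hT
  obtain ⟨⟨hcu, hcv, hcw⟩, _, _, _⟩ := hCOU V L e u v w i j k c m hT
  have hT' := hT
  obtain ⟨tri, ev, _⟩ := hT'
  obtain ⟨nd, act, hi, hj, hk, uv, vw, wu, u2, u3, v2, v3, w2, w3⟩ := tri
  obtain ⟨h1, h2, h3, h4, h5, h6, h7, h8⟩ := hRDV V L e u v w i j k hT.tri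
  obtain ⟨cinv, cev⟩ := ev
  have hvL : v ∉ L := by
    rw [List.nodup_cons, List.nodup_cons] at nd
    exact fun h => nd.2.1 (List.mem_cons_of_mem _ h)
  have hne : ∀ d : V × Fin 4, d.1 ∈ L → ∀ l, d ≠ (v, l) := by
    rintro d hd l rfl
    exact hvL hd
  have hc : ∀ d : V × Fin 4, d.1 ∈ L → cred c v w j k d = c d := fun d hd =>
    RDE_cred c v w j k d (hne d hd _) (hne d hd _)
  obtain ⟨c0, c1⟩ := RDE_cred0 c v w j k
  refine ⟨?_, ?_⟩
  · intro d
    by_cases hd1 : d.1 = u ∨ d.1 = w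
    · rw [h1 d hd1]
    rw [not_or] at hd1
    by_cases hd2 : d = (v, j 0)
    · rw [hd2, h2, hc _ w3, cinv, c0, hcw]
    by_cases hd3 : d = (v, j 1)
    · rw [hd3, h3, hc _ w2, cinv, c1]
    by_cases hd4 : d = e (w, k 3)
    · rw [hd4, h4, hc _ w3, cinv, c0, hcw]
    by_cases hd5 : d = e (w, k 2)
    · rw [hd5, h5, hc _ w2, cinv, c1]
    by_cases hd6 : d = e (u, i 2)
    · rw [hd6, h6, hc _ u2, hc _ u3, cinv, cinv, hcu]
    by_cases hd7 : d = e (u, i 3)
    · rw [hd7, h7, hc _ u2, hc _ u3, cinv, cinv, hcu]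
    rw [h8 d hd1.1 hd1.2 hd2 hd3 hd4 hd5 hd6 hd7, RDE_cred c v w j k d hd2 hd3]
    have a1 : e d ≠ (v, j 0) := by
      intro h
      have h9 : d = (w, k 1) := by rw [← act.1 d, h, vw]
      exact hd1.2 (by rw [h9])
    have a2 : e d ≠ (v, j 1) := by
      intro h
      have h9 : d = (u, i 0) := by rw [← act.1 d, h, ← uv, act.1]
      exact hd1.1 (by rw [h9])
    rw [RDE_cred c v w j k (e d) a1 a2, cinv]
  · intro o ho a
    rw [List.toFinset_cons, mem_insert, List.mem_toFinset] at ho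
    rcases ho with rfl | ho
    · refine RDE_even j hj (fun l => cred c o w j k (o, l)) ?_ ?_ a
      · show cred c o w j k (o, j 0) = cred c o w j k (o, j 1)
        rw [c0, c1]
      · show cred c o w j k (o, j 2) = cred c o w j k (o, j 3)
        have b : ∀ s t : Fin 4, s ≠ t → ((o, j s) : V × Fin 4) ≠ (o, j t) := by
          intro s t hst h
          rw [Prod.mk.injEq] at h
          exact hst (hj h.2)
        rw [RDE_cred c o w j k _ (b 2 0 (by decide)) (b 2 1 (by decide)),
          RDE_cred c o w j k _ (b 3 0 (by decide)) (b 3 1 (by decide)), hcv]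
    · have h9 : o ∈ (u :: v :: w :: L).toFinset := by
        rw [List.mem_toFinset]
        exact List.mem_cons_of_mem _ (List.mem_cons_of_mem _ (List.mem_cons_of_mem _ ho))
      have h10 := cev o h9 a
      have h11 : ((univ : Finset (Fin 4)).filter fun l => cred c v w j k (o, l) = a) =
          ((univ : Finset (Fin 4)).filter fun l => c (o, l) = a) := by
        refine Finset.filter_congr fun l _ => ?_
        rw [hc (o, l) ho]
      rw [h11]
      exact h10

end Pool.Agent.CY
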